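import Pool.Agent.Helper61.LN.Goals

/-!
# Packet CHG (project LN, MP_c65973_gt): colourings and crossing changes
-/

set_option autoImplicit false

namespace Pool.Agent.Helper71.LN.CHG

open Pool.Agent.Helper31.Sk Pool.Agent.Helper61.LN

section
variable {X : Type} [AddCommGroup X] [Fintype X] [DecidableEq X]

theorem op_mono (i : ℕ) (g : Gen) (φ ψ : (ℕ → X) → ℕ) (h : ∀ x, φ x ≤ ψ x) (x : ℕ → X) :
    op i g φ x ≤ op i g ψ x := by
  cases g
  · exact Finset.sum_le_sum fun c _ => h _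
  · simp only [op]
    split_ifs
    · exact h _
    · exact le_rfl
  · exact h _
  · exact h _

theorem ev_mono (w : Word) : ∀ (φ ψ : (ℕ → X) → ℕ), (∀ x, φ x ≤ ψ x) → ∀ x : ℕ → X,
    ev w φ x ≤ ev w ψ x := by
  induction w with
  | nil => intro φ ψ h x; exact h x
  | cons s w ih =>
    obtain ⟨i, g⟩ := s
    intro φ ψ h x
    exact op_mono i g _ _ (ih φ ψ h) x

theorem op_sum {ι : Type} (s : Finset ι) (i : ℕ) (g : Gen) (φ : ι → (ℕ → X) → ℕ) (x : ℕ → X) :
    op i g (fun y => ∑ c ∈ s, φ c y) x = ∑ c ∈ s, op i g (φ c) x := by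
  cases g
  · simp only [op]
    rw [Finset.sum_comm]
  · simp only [op]
    split_ifs
    · rfl
    · simp
  · rfl
  · rfl

theorem ev_sum {ι : Type} (s : Finset ι) (w : Word) : ∀ (φ : ι → (ℕ → X) → ℕ) (x : ℕ → X),
    ev w (fun y => ∑ c ∈ s, φ c y) x = ∑ c ∈ s, ev w (φ c) x := by
  induction w with
  | nil => intro φ x; rfl
  | cons t w ih =>
    obtain ⟨i, g⟩ := t
    intro φ x
    show op i g (ev w (fun y => ∑ c ∈ s, φ c y)) x = ∑ c ∈ s, op i g (ev w (φ c)) x
    rw [← op_sum s i g (fun c => ev w (φ c)) x]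
    congr 1
    funext y
    exact ih φ y

end

/-- both crossings do the same if the two labels are equal -/
theorem flip_eq (i : ℕ) (g : Gen) (hg : g = .pos ∨ g = .neg) (φ : (ℕ → ZMod 3) → ℕ)
    (x : ℕ → ZMod 3) (hx : x i - x (i + 1) = 0) : op i g φ x = op i g.flip φ x := by
  have h : x (i + 1) = x i := (sub_eq_zero.mp hx).symm
  rcases hg with rfl | rfl
  · simp only [op, Gen.flip, h]
    rw [add_sub_cancel_right]
  · simp only [op, Gen.flip, h]
    rw [add_sub_cancel_right]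

/-- one crossing change -/
theorem one (hS : S_SUB) (a b : Word) (i : ℕ) (g : Gen) (hg : g = .pos ∨ g = .neg) :
    e3 (a ++ (i, g) :: b) 0 ≤ 3 * e3 (a ++ (i, g.flip) :: b) 0 := by
  classical
  set ph : (ℕ → ZMod 3) → ℕ := ev ((i, g) :: b) (fun _ => 1) with hph
  set ph' : (ℕ → ZMod 3) → ℕ := ev ((i, g.flip) :: b) (fun _ => 1) with hph'
  have e1 : e3 (a ++ (i, g) :: b) 0 = ev a ph 0 := by
    unfold e3
    rw [ev_append]
  have e2 : e3 (a ++ (i, g.flip) :: b) 0 = ev a ph' 0 := by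
    unfold e3
    rw [ev_append]
  let ψ : (ℕ → ZMod 3) → ZMod 3 → ℕ := fun y c => if y i - y (i + 1) = c then ph y else 0
  have hsum : ∀ y, ph y = ∑ c : ZMod 3, ψ y c := by
    intro y
    simp only [ψ]
    rw [Finset.sum_ite_eq]
    simp
  have hsub0 : SubInd 3 (fun (_ : ℕ → ZMod 3) (_ : ZMod 3) => 1) :=
    ⟨1, ⊤, fun _ _ _ => rfl, fun x c h => absurd (AddSubgroup.mem_top (x, c)) h⟩
  have hsub1 := hS 3 ((i, g) :: b) _ hsub0
  obtain ⟨κ, U, hU1, hU2⟩ := hsub1
  have hsub2 : SubInd 3 ψ := by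
    let L : AddSubgroup ((ℕ → ZMod 3) × ZMod 3) :=
      { carrier := {p | p.1 i - p.1 (i + 1) = p.2}
        add_mem' := by
          intro p p' hp hp'
          show (p.1 i + p'.1 i) - (p.1 (i + 1) + p'.1 (i + 1)) = p.2 + p'.2
          have h1 : p.1 i - p.1 (i + 1) = p.2 := hp
          have h2 : p'.1 i - p'.1 (i + 1) = p'.2 := hp'
          rw [← h1, ← h2]
          ring
        zero_mem' := by
          show (0 : ZMod 3) - 0 = 0
          ring
        neg_mem' := by
          intro p hp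
          have h1 : p.1 i - p.1 (i + 1) = p.2 := hp
          show -(p.1 i) - -(p.1 (i + 1)) = -p.2
          rw [← h1]
          ring }
    refine ⟨κ, U ⊓ L, ?_, ?_⟩
    · intro x c hxc
      have h1 := (AddSubgroup.mem_inf.mp hxc).1
      have h2 : x i - x (i + 1) = c := (AddSubgroup.mem_inf.mp hxc).2
      simp only [ψ, if_pos h2]
      exact hU1 x c h1
    · intro x c hxc
      by_cases h2 : x i - x (i + 1) = c
      · simp only [ψ, if_pos h2]
        refine hU2 x c ?_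
        intro h1
        exact hxc (AddSubgroup.mem_inf.mpr ⟨h1, h2⟩)
      · simp only [ψ, if_neg h2]
  obtain ⟨κ', U', hV1, hV2⟩ := hS 3 a ψ hsub2
  have hle : ∀ c : ZMod 3, ev a (fun y => ψ y c) 0 ≤ κ' := by
    intro c
    by_cases h : ((0 : ℕ → ZMod 3), c) ∈ U'
    · exact (hV1 0 c h).le
    · exact (hV2 0 c h).le.trans (Nat.zero_le _)
  have h0 : ev a (fun y => ψ y 0) 0 = κ' := hV1 0 0 U'.zero_mem
  rw [e1, e2]
  have h3 : ev a ph 0 = ∑ c : ZMod 3, ev a (fun y => ψ y c) 0 := by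
    rw [← ev_sum Finset.univ a (fun c y => ψ y c) 0]
    congr 1
    funext y
    exact hsum y
  have h4 : ev a (fun y => ψ y 0) 0 ≤ ev a ph' 0 := by
    refine ev_mono a _ _ ?_ 0
    intro y
    by_cases h : y i - y (i + 1) = 0
    · simp only [ψ, if_pos h]
      exact (flip_eq i g hg (ev b fun _ => 1) y h).le
    · simp only [ψ, if_neg h]
      exact Nat.zero_le _
  rw [h3]
  calc ∑ c : ZMod 3, ev a (fun y => ψ y c) 0 ≤ ∑ _c : ZMod 3, κ' :=
        Finset.sum_le_sum fun c _ => hle c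
    _ = 3 * κ' := by simp [ZMod.card]
    _ ≤ 3 * ev a ph' 0 := Nat.mul_le_mul_left 3 (h0 ▸ h4)

theorem t1 (h : S_SUB) : S_CHG := by
  have key : ∀ (w w' : Word) (k : ℕ), Changes w w' k → ∀ a : Word,
      e3 (a ++ w) 0 ≤ 3 ^ k * e3 (a ++ w') 0 := by
    intro w w' k hc
    induction hc with
    | nil => intro a; simp
    | keep s w w' k _ ih =>
      intro a
      have := ih (a ++ [s])
      simpa using this
    | chg i g w w' k hg _ ih =>
      intro a
      have h1 := ih (a ++ [(i, g)])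
      have h2 := one h a w' i g hg
      simp only [List.append_assoc, List.singleton_append] at h1
      calc e3 (a ++ (i, g) :: w) 0 ≤ 3 ^ k * e3 (a ++ (i, g) :: w') 0 := h1
        _ ≤ 3 ^ k * (3 * e3 (a ++ (i, g.flip) :: w') 0) := Nat.mul_le_mul_left _ h2
        _ = 3 ^ (k + 1) * e3 (a ++ (i, g.flip) :: w') 0 := by ring
  intro w w' k hc
  exact key w w' k hc []

theorem e3_unknot : e3 unknot 0 = 3 := by
  simp [e3, unknot, ev, op, insF, ZMod.card]

theorem t2 (h : S_CHG) (h2 : S_INV) : S_UNL := by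
  intro w j hj
  have hne : {k : ℕ∞ | ∃ (j : ℕ) (w' w'' : Word), k = j ∧ Iso 0 0 w w' ∧ Changes w' w'' j ∧
      Iso 0 0 w'' unknot}.Nonempty := by
    by_contra hcon
    rw [Set.not_nonempty_iff_eq_empty] at hcon
    unfold un at hj
    rw [hcon, sInf_empty] at hj
    exact (ENat.coe_ne_top j) hj.symm
  have hmem := csInf_mem hne
  have hj' : sInf {k : ℕ∞ | ∃ (j : ℕ) (w' w'' : Word), k = j ∧ Iso 0 0 w w' ∧ Changes w' w'' j ∧
      Iso 0 0 w'' unknot} = (j : ℕ∞) := hj
  rw [hj'] at hmem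
  obtain ⟨j', w', w'', e, h3, h4, h5⟩ := hmem
  have e' : j = j' := by exact_mod_cast e
  subst e'
  have e1 : e3 w 0 = e3 w' 0 := h2 3 0 0 w w' h3 (fun _ => 1) 0
  have e2 : e3 w'' 0 = e3 unknot 0 := h2 3 0 0 w'' unknot h5 (fun _ => 1) 0
  have e4 := h w' w'' j h4
  rw [e2, e3_unknot] at e4
  rw [e1, pow_succ]
  exact e4

end Pool.Agent.Helper71.LN.CHG
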